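import Pool.Agent.VAC.Seq

/-!
# Cutoff for expanders with an almost abelian group of automorphisms with almost full orbits

The lazy random walks on a sequence of connected regular graphs (for example vertex-transitive
graphs) of bounded degree, with the spectral gaps bounded from below, exhibit cutoff in total
variation as soon as the graph number `n` has a group `A n` of automorphisms all of whose orbits
have at least `|V n| ^ (1 - o(1))` vertices and whose commutator subgroup has at most
`|V n| ^ o(1)` elements (for example an abelian group).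
-/

set_option autoImplicit false

namespace Pool.Agent.Results.MP_64152e_pr.AlmostAbelian

open Filter Topology
open Pool.Agent.VAC (lazyP tmix HasGap)

theorem result (V : ℕ → Type) [∀ n, Fintype (V n)] [∀ n, DecidableEq (V n)]
    (G : ∀ n, SimpleGraph (V n)) [∀ n, DecidableRel (G n).Adj]
    (A : ∀ n, Subgroup (G n ≃g G n))
    (hcard : Tendsto (fun n => Fintype.card (V n)) atTop atTop)
    (hconn : ∀ n, (G n).Connected)
    (hdeg : ∃ D : ℕ, ∀ n, ∃ d ≤ D, (G n).IsRegularOfDegree d)
    (hgap : ∃ lam : ℝ, 0 < lam ∧ ∀ n, HasGap (lazyP (G n)) lam)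
    (hA : ∀ δ : ℝ, 0 < δ → ∀ᶠ n in atTop,
      (∀ x : V n, (Fintype.card (V n) : ℝ) ^ (1 - δ) ≤ ({y | ∃ a ∈ A n, a x = y}.ncard : ℝ)) ∧
      (Nat.card (commutator (A n)) : ℝ) ≤ (Fintype.card (V n) : ℝ) ^ δ)
    (ε : ℝ) (hε0 : 0 < ε) (hε1 : ε < 1) :
    Tendsto (fun n => (tmix (lazyP (G n)) ε : ℝ) / (tmix (lazyP (G n)) (1 - ε) : ℝ))
      atTop (𝓝 1) := by
  refine Pool.Agent.VAC.cutoff V G A hcard hconn hdeg hgap (fun δ hδ => ?_) ε hε0 hε1
  filter_upwards [hA δ hδ] with n hn
  refine ⟨fun x => ?_, hn.2⟩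
  have h1 : MulAction.orbit (A n) x = {y | ∃ a ∈ A n, a x = y} := by
    ext y
    constructor
    · rintro ⟨a, rfl⟩
      exact ⟨a, a.2, rfl⟩
    · rintro ⟨a, ha, rfl⟩
      exact ⟨⟨a, ha⟩, rfl⟩
  rw [h1]
  exact hn.1 x

end Pool.Agent.Results.MP_64152e_pr.AlmostAbelian
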