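import Pool.Agent.NPL.Seq

/-!
# Mixing times of vertex-transitive graphs at different levels: no plateaus

Let `G n` be finite connected vertex-transitive graphs which satisfy the product condition (for
example expanders of bounded degree with growing number of vertices). Then the mixing times of the
lazy walks at two levels `a < b` satisfy `limsup T(a) / T(b) ≤ m + θ` whenever
`b ^ m (1 - θ (1 - b)) ≤ a`, `m ≥ 1` an integer and `0 ≤ θ ≤ 1`. In particular
`limsup T(a) / T(b) ≤ 1 + (b - a) / (b (1 - b))` for `b² ≤ a ≤ b`, which tends to `1` for `a → b`.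
-/

set_option autoImplicit false

namespace Pool.Agent.Results.MP_64152e_pr.NoPlateau

open Filter Topology
open Pool.Agent.VAC (lazyP tmix HasGap)

theorem result (V : ℕ → Type) [∀ n, Fintype (V n)] [∀ n, DecidableEq (V n)]
    (G : ∀ n, SimpleGraph (V n)) [∀ n, DecidableRel (G n).Adj]
    (hconn : ∀ n, (G n).Connected)
    (htrans : ∀ n, ∀ x y : V n, ∃ φ : G n ≃g G n, φ x = y)
    (lam : ℕ → ℝ) (hlam : ∀ n, 0 < lam n) (hgap : ∀ n, HasGap (lazyP (G n)) (lam n))
    (hprod : Tendsto (fun n => lam n * (tmix (lazyP (G n)) (1 / 4) : ℝ)) atTop atTop)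
    (b : ℝ) (hb0 : 0 < b) (hb1 : b < 1) (m : ℕ) (hm : 1 ≤ m)
    (θ : ℝ) (hθ0 : 0 ≤ θ) (hθ1 : θ ≤ 1) (a : ℝ) (ha : b ^ m * (1 - θ * (1 - b)) ≤ a)
    (η : ℝ) (hη : 0 < η) :
    ∀ᶠ n in atTop,
      (tmix (lazyP (G n)) a : ℝ) ≤ (m + θ + η) * (tmix (lazyP (G n)) b : ℝ) :=
  Pool.Agent.NPL.seq_prod V G lam hconn htrans hlam hgap hprod b θ η a hb0 hb1 hθ0 hθ1 hη m
    hm ha

end Pool.Agent.Results.MP_64152e_pr.NoPlateau
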