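import Pool.Agent.ACO.Asm4
import Pool.Agent.ACO.P_CHE
import Pool.Agent.ACO.P_CNT
import Pool.Agent.ACO.P_CON
import Pool.Agent.ACO.P_DEC
import Pool.Agent.ACO.P_EVL
import Pool.Agent.ACO.P_FNN
import Pool.Agent.ACO.P_GAP
import Pool.Agent.ACO.P_INV
import Pool.Agent.ACO.P_LON
import Pool.Agent.ACO.P_LZ
import Pool.Agent.ACO.P_MON
import Pool.Agent.ACO.P_MP
import Pool.Agent.ACO.P_NBN
import Pool.Agent.ACO.P_NL
import Pool.Agent.ACO.P_SPN
import Pool.Agent.ACO.P_TMN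
import Pool.Agent.ACO.P_UPN
import Pool.Agent.RCG.Fin13
import Pool.Agent.RCG.BNS
import Pool.Agent.RCG.RCG
import Pool.Agent.RCG.ZNM
import Pool.Agent.RCG.CAT

/-!
# Random Cayley graphs of `PSL (2, p)`: mixing times and cutoff

Let `G = PSL (2, p)`, `k = 2 d ≥ 132498` and `T = (k/(k-2)) 2 log |G| / log (k-1)`. There is a
constant `C` such that for `0 < η < 1` all but a proportion `17 d²/p + p^(-1/4)` of the `d`-tuples
of elements of `G` give a connected vertex-transitive Cayley graph of degree `k` with a spectral gap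
bounded below, whose lazy walk has all mixing times at levels in `[η, 1 - η]` between `(1 - η) T`
and `(1 + η) (1 + C k^(-1/28)) T`; here `p ≥ P`, `R log d ≤ log p`, with `P, R` depending on `η`
only, so the degree may be fixed or tend to infinity with `p`.
-/

set_option autoImplicit false

namespace Pool.Agent.Results.MP_64152e_pr.RandomCayley

open Pool.Agent.VAC (lazyP tmix HasGap)

/-- the group `PSL (2, p)` -/
abbrev PSL (p : ℕ) : Type := Matrix.SpecialLinearGroup (Fin 2) (ZMod p) ⧸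
  Subgroup.center (Matrix.SpecialLinearGroup (Fin 2) (ZMod p))

/-- the (simple) Cayley graph of the tuple `s`: `x` is joined with `x * s i` and `x * (s i)⁻¹` -/
def cay {G : Type} [Group G] {d : ℕ} (s : Fin d → G) : SimpleGraph G where
  Adj x y := x ≠ y ∧ ∃ i, y = x * s i ∨ y = x * (s i)⁻¹
  symm := ⟨by
    rintro x y ⟨h, i, h1 | h1⟩
    · exact ⟨h.symm, i, Or.inr (by rw [h1]; group)⟩
    · exact ⟨h.symm, i, Or.inl (by rw [h1]; group)⟩⟩
  loopless := ⟨fun x h => h.1 rfl⟩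

/-- the time `(k/(k-2)) 2 log N / log (k-1)` -/
noncomputable def T (k N : ℝ) : ℝ := k / (k - 2) * (2 * Real.log N / Real.log (k - 1))

open Classical in
/-- the Cayley graph of `s` is connected, regular of degree `2 d` and vertex-transitive, its lazy
walk has spectral gap at least `γ`, and the mixing times of the lazy walk at all levels in
`[η, 1 - η]` are between `lo` and `hi` -/
def Nice {G : Type} [Group G] [Fintype G] {d : ℕ} (s : Fin d → G) (η γ lo hi : ℝ) : Prop :=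
  (cay s).Connected ∧ (cay s).IsRegularOfDegree (2 * d) ∧
    (∀ x y : G, ∃ φ : cay s ≃g cay s, φ x = y) ∧ HasGap (lazyP (cay s)) γ ∧
    ∀ ε : ℝ, η ≤ ε → ε ≤ 1 - η →
      lo ≤ (tmix (lazyP (cay s)) ε : ℝ) ∧ (tmix (lazyP (cay s)) ε : ℝ) ≤ hi

/-- `Nice` for a tuple of elements of the finite group `PSL (2, p)` -/
def Good {p d : ℕ} (s : Fin d → PSL p) (η γ lo hi : ℝ) : Prop :=
  ∃ _ : Fintype (PSL p), Nice s η γ lo hi

theorem result : ∃ C γ : ℝ, 0 ≤ C ∧ 0 < γ ∧ ∀ η : ℝ, 0 < η → η < 1 → ∃ (P : ℕ) (R : ℝ),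
    ∀ p d : ℕ, p.Prime → P ≤ p → 66249 ≤ d → R * Real.log d ≤ Real.log p →
      (1 - 17 * (d : ℝ) ^ 2 / p - (p : ℝ) ^ (-(1 / 4 : ℝ))) * (Nat.card (PSL p) : ℝ) ^ d ≤
        (Nat.card {s : Fin d → PSL p // Good s η γ
          ((1 - η) * T (2 * d) (Nat.card (PSL p)))
          ((1 + η) * (1 + C * (2 * (d : ℝ)) ^ (-(1 / 28 : ℝ))) *
            T (2 * d) (Nat.card (PSL p)))} : ℝ) := by
  have hDEC : Pool.Agent.ACO.T_DEC := Pool.Agent.ACO.p_DEC Pool.Agent.ACO.p_EVL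
  have hTM : Pool.Agent.ACO.T_TMN :=
    Pool.Agent.ACO.p_TMN
      (Pool.Agent.ACO.p_UPN Pool.Agent.ACO.p_EVL hDEC
        (Pool.Agent.ACO.p_SPN Pool.Agent.ACO.p_CHE) Pool.Agent.ACO.p_NBN)
      (Pool.Agent.ACO.p_LON Pool.Agent.ACO.p_EVL hDEC Pool.Agent.ACO.p_NBN)
      (Pool.Agent.ACO.p_MON Pool.Agent.ACO.p_LZ Pool.Agent.ACO.p_MP)
  have hFNN : Pool.Agent.ACO.T_FNN :=
    Pool.Agent.ACO.p_FNN hTM (Pool.Agent.ACO.p_GAP Pool.Agent.ACO.p_LZ) Pool.Agent.ACO.p_CNT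
      Pool.Agent.ACO.p_INV Pool.Agent.ACO.p_NL Pool.Agent.ACO.p_CON Pool.Agent.ACO.p_LZ
  open Pool.Agent.RCG in
  have hrate := rate (all_QFI (prove_BNS all_GT prove_EXZ prove_SPE)
    (prove_RCG prove_TOP (prove_LIF prove_MIX)) prove_ZNM prove_CAT) prove_ELEU
  open Pool.Agent.RCG in
  obtain ⟨C, γ, hC, hγ, h⟩ := Pool.Agent.ACO.final4 hFNN prove_QUO prove_POL all_UNI hrate
  refine ⟨C, γ, hC, hγ, fun η hη hη1 => ?_⟩
  obtain ⟨P, R, h2⟩ := h η hη hη1
  refine ⟨P, R, fun p d hp hP hd hR => ?_⟩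
  have : Fact p.Prime := ⟨hp⟩
  have hdr : (66249 : ℝ) ≤ d := by exact_mod_cast hd
  have hT : Pool.Agent.ACO.TT d (Nat.card (PSL p)) 1 = T (2 * d) (Nat.card (PSL p)) := by
    unfold Pool.Agent.ACO.TT T
    rw [one_pow, div_one]
    congr 1
    have e1 : (d : ℝ) - 1 ≠ 0 := by linarith
    have e2 : 2 * (d : ℝ) - 2 ≠ 0 := by linarith
    field_simp
  have h3 := h2 p d hp hP hd hR
  rw [hT] at h3
  refine h3.trans (Pool.Agent.ACO.Asm_.card_mono fun s => ?_)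
  rintro ⟨F, hN, hg, hs⟩
  refine ⟨F, hN.1, hN.2.1, hN.2.2, hg, fun ε e1 e2 => ?_⟩
  obtain ⟨e3, e4⟩ := hs ε e1 e2
  refine ⟨e3, e4.trans (le_of_eq ?_)⟩
  ring

end Pool.Agent.Results.MP_64152e_pr.RandomCayley
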